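import Pool.Agent.H334R5.Lin.Clause
import Pool.Agent.H334R5.Nest.PolyPart

/-!
# Boolean combinations of conjunctive queries as nested conjunctions of clauses
-/

set_option autoImplicit false

namespace Pool.Agent.H334R5.Lin

open Pool.Agent.NPC Pool.Agent.H334R5.Nest

/-- The bit patterns of the length of `Zs`, in the lexicographic order. -/
def pats : ℕ → List (List (List Bool)) → List (List Bool)
  | 0, _ => [[]]
  | k + 1, Zs => Zs.head?.elim [[]] (fun _ =>
      (pats k Zs.tail).map (fun y => false :: y) ++ (pats k Zs.tail).map (fun y => true :: y))

/-- The clauses expressing that the answer `true` occurs at some zero of the pattern `y`. -/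
def expand : ℕ → List Bool → List (List (List Bool)) → List (List (List Bool))
  | 0, _, _ => [[]]
  | k + 1, y, Zs => Zs.head?.elim [[]] (fun Z =>
      bif y.head?.getD true then expand k y.tail Zs.tail
      else Z.flatMap (fun z => (expand k y.tail Zs.tail).map (fun C => z :: C)))

/-- `v` has a one at some zero of `y`. -/
def hit : List Bool → List Bool → Prop
  | b :: y, c :: v => (b = false ∧ c = true) ∨ hit y v
  | _, _ => False

open Classical in
/-- The answers. -/
noncomputable def val (S : Set (List Bool)) (Zs : List (List (List Bool))) : List Bool :=
  Zs.map (fun Z => decide (∀ y ∈ Z, y ∈ S))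

theorem hit_irrefl : ∀ v : List Bool, ¬ hit v v
  | [] => fun h => h
  | b :: v => fun h => by
    rcases h with h | h
    · rw [h.1] at h; simp at h
    · exact hit_irrefl v h

theorem mem_pats (S : Set (List Bool)) : ∀ (k : ℕ) (Zs : List (List (List Bool))),
    Zs.length ≤ k → val S Zs ∈ pats k Zs := by
  intro k
  induction k with
  | zero =>
    intro Zs h
    obtain rfl : Zs = [] := List.length_eq_zero_iff.1 (by omega)
    simp [val, pats]
  | succ k ih =>
    intro Zs h
    cases Zs with
    | nil => simp [val, pats]
    | cons Z Zs =>
      simp only [List.length_cons] at h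
      have h1 := ih Zs (by omega)
      unfold pats
      simp only [List.head?_cons, Option.elim_some, List.tail_cons, List.mem_append, List.mem_map]
      have h2 : val S (Z :: Zs) = (val S [Z]).headD false :: val S Zs := by simp [val]
      rw [h2]
      cases (val S [Z]).headD false with
      | false => exact Or.inl ⟨_, h1, rfl⟩
      | true => exact Or.inr ⟨_, h1, rfl⟩

theorem length_of_mem_pats : ∀ (k : ℕ) (Zs : List (List (List Bool))), Zs.length ≤ k →
    ∀ y ∈ pats k Zs, y.length = Zs.length := by
  intro k
  induction k with
  | zero =>
    intro Zs h y hy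
    obtain rfl : Zs = [] := List.length_eq_zero_iff.1 (by omega)
    simp only [pats, List.mem_cons, List.not_mem_nil, or_false] at hy
    rw [hy]
    rfl
  | succ k ih =>
    intro Zs h y hy
    cases Zs with
    | nil =>
      simp only [pats, List.head?_nil, Option.elim_none, List.mem_cons, List.not_mem_nil,
        or_false] at hy
      rw [hy]
      rfl
    | cons Z Zs =>
      simp only [List.length_cons] at h
      unfold pats at hy
      simp only [List.head?_cons, Option.elim_some, List.tail_cons, List.mem_append,
        List.mem_map] at hy
      rcases hy with ⟨v, hv, rfl⟩ | ⟨v, hv, rfl⟩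
      · simp [ih Zs (by omega) v hv]
      · simp [ih Zs (by omega) v hv]

theorem pats_pairwise : ∀ (k : ℕ) (Zs : List (List (List Bool))), (pats k Zs).Pairwise hit := by
  intro k
  induction k with
  | zero => intro Zs; simp [pats]
  | succ k ih =>
    intro Zs
    cases Zs with
    | nil => simp [pats]
    | cons Z Zs =>
      unfold pats
      simp only [List.head?_cons, Option.elim_some, List.tail_cons]
      rw [List.pairwise_append, List.pairwise_map, List.pairwise_map]
      refine ⟨(ih Zs).imp fun h => Or.inr h, (ih Zs).imp fun h => Or.inr h, ?_⟩
      intro a ha b hb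
      rw [List.mem_map] at ha hb
      obtain ⟨u, -, rfl⟩ := ha
      obtain ⟨v, -, rfl⟩ := hb
      exact Or.inl ⟨rfl, rfl⟩

theorem length_pats : ∀ (k : ℕ) (Zs : List (List (List Bool))), (pats k Zs).length ≤ 2 ^ k := by
  intro k
  induction k with
  | zero => intro Zs; simp [pats]
  | succ k ih =>
    intro Zs
    cases Zs with
    | nil => simp only [pats, List.head?_nil, Option.elim_none, List.length_singleton]
             exact Nat.one_le_two_pow
    | cons Z Zs =>
      have := ih Zs
      simp only [pats, List.head?_cons, Option.elim_some, List.tail_cons, List.length_append,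
        List.length_map]
      rw [pow_succ]
      omega

theorem expand_iff (S : Set (List Bool)) : ∀ (k : ℕ) (y : List Bool)
    (Zs : List (List (List Bool))), Zs.length ≤ k → y.length = Zs.length →
    ((∀ C ∈ expand k y Zs, ∃ z ∈ C, z ∈ S) ↔ hit y (val S Zs)) := by
  intro k
  induction k with
  | zero =>
    intro y Zs h hy
    obtain rfl : Zs = [] := List.length_eq_zero_iff.1 (by omega)
    obtain rfl : y = [] := List.length_eq_zero_iff.1 (by simpa using hy)
    simp [expand, hit, val]
  | succ k ih =>
    intro y Zs h hy
    cases Zs with
    | nil =>
      obtain rfl : y = [] := List.length_eq_zero_iff.1 (by simpa using hy)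
      simp [expand, hit, val]
    | cons Z Zs =>
      cases y with
      | nil => simp at hy
      | cons b y =>
        simp only [List.length_cons, Nat.add_right_cancel_iff] at h hy
        have h1 := ih y Zs (by omega) hy
        unfold expand
        simp only [List.head?_cons, Option.elim_some, List.tail_cons, Option.getD_some]
        have h2 : val S (Z :: Zs) = (val S [Z]).headD false :: val S Zs := by simp [val]
        have h3 : (val S [Z]).headD false = true ↔ ∀ y ∈ Z, y ∈ S := by simp [val]
        rw [h2]
        cases b with
        | true =>
          rw [cond_true, h1]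
          simp [hit]
        | false =>
          rw [cond_false]
          have h4 : hit (false :: y) ((val S [Z]).headD false :: val S Zs) ↔
              ((∀ y ∈ Z, y ∈ S) ∨ hit y (val S Zs)) := by
            rw [← h3]
            simp [hit]
          rw [h4, ← h1]
          simp only [List.mem_flatMap, List.mem_map]
          constructor
          · intro h5
            by_contra hcon
            push Not at hcon
            obtain ⟨⟨z, hz, hzS⟩, C, hC, hCS⟩ := hcon
            obtain ⟨w, hw, hwS⟩ := h5 (z :: C) ⟨z, hz, C, hC, rfl⟩
            rcases List.mem_cons.1 hw with rfl | hw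
            · exact hzS hwS
            · exact hCS w hw hwS
          · rintro h5 _ ⟨z, hz, C, hC, rfl⟩
            rcases h5 with h5 | h5
            · exact ⟨z, by simp, h5 z hz⟩
            · obtain ⟨w, hw, hwS⟩ := h5 C hC
              exact ⟨w, List.mem_cons_of_mem _ hw, hwS⟩

theorem length_of_mem_expand : ∀ (k : ℕ) (y : List Bool) (Zs : List (List (List Bool))),
    ∀ C ∈ expand k y Zs, C.length ≤ k := by
  intro k
  induction k with
  | zero =>
    intro y Zs C hC
    simp only [expand, List.mem_cons, List.not_mem_nil, or_false] at hC
    simp [hC]
  | succ k ih =>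
    intro y Zs C hC
    unfold expand at hC
    cases Zs with
    | nil =>
      simp only [List.head?_nil, Option.elim_none, List.mem_cons, List.not_mem_nil,
        or_false] at hC
      simp [hC]
    | cons Z Zs =>
      simp only [List.head?_cons, Option.elim_some, List.tail_cons] at hC
      cases hb : y.head?.getD true with
      | true =>
        rw [hb, cond_true] at hC
        exact (ih _ _ C hC).trans (by omega)
      | false =>
        rw [hb, cond_false] at hC
        simp only [List.mem_flatMap, List.mem_map] at hC
        obtain ⟨z, -, C', hC', rfl⟩ := hC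
        have := ih _ _ C' hC'
        simp only [List.length_cons]
        omega

theorem bits_mem_clauses {k : ℕ} {S : Set (List Bool)} {C : List (List Bool)}
    (hC : C.length ≤ k) : bits C ∈ Clauses k S ↔ ∃ z ∈ C, z ∈ S := by
  unfold Clauses
  rw [Set.mem_ofPred_eq]
  constructor
  · intro h
    exact h C (unbits_bits C) hC
  · intro h C' hC' _
    rw [unbits_bits] at hC'
    obtain rfl : C = C' := by simpa using hC'
    exact h

/-! ### The levels -/

/-- the truth table at the pattern with the index `j` -/
def tt (T P : List (List Bool)) (j : ℕ) : Bool := decide (P.getD j [] ∈ T)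

/-- the truth table changes at `j` -/
def change (T P : List (List Bool)) (j : ℕ) : Bool :=
  tt T P j ^^ (bif decide (j = 0) then false else tt T P (j - 1))

/-- The levels of the nested reduction. -/
def levels (k : ℕ) (r : List (List (List Bool)) × List (List Bool)) :
    List (List (List Bool)) :=
  ((List.range (pats k r.1).length).filter (change r.2 (pats k r.1))).map (fun j =>
    ((pats k r.1).take j).flatMap (fun y => (expand k y r.1).map (fun C => bits C)))

theorem leading_sorted {S : Set (List Bool)} {F : ℕ → List (List Bool)} {i : ℕ} :
    ∀ J : List ℕ, J.Pairwise (· < ·) → (∀ j ∈ J, ((∀ s ∈ F j, s ∈ S) ↔ j ≤ i)) →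
    leading S (J.map F) = (J.filter (fun j => decide (j ≤ i))).length := by
  intro J
  induction J with
  | nil => intro _ _; rfl
  | cons j J ih =>
    intro hJ h
    rw [List.pairwise_cons] at hJ
    have h1 := h j (by simp)
    rw [List.map_cons]
    by_cases hj : j ≤ i
    · rw [leading_pos (h1.2 hj), ih hJ.2 (fun a ha => h a (List.mem_cons_of_mem _ ha)),
        List.filter_cons_of_pos (by simpa using hj)]
      rfl
    · rw [leading_neg (fun hc => hj (h1.1 hc))]
      symm
      rw [List.length_eq_zero_iff, List.filter_eq_nil_iff]
      intro a ha
      rcases List.mem_cons.1 ha with rfl | ha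
      · simpa using hj
      · have := hJ.1 a ha
        simp only [decide_eq_true_eq]
        omega

theorem change_parity (T P : List (List Bool)) (i : ℕ) :
    Odd (((List.range (i + 1)).filter (change T P)).length) ↔ tt T P i = true := by
  induction i with
  | zero =>
    have : change T P 0 = tt T P 0 := by simp [change]
    cases h : tt T P 0 with
    | false => simp [List.range_succ, this, h]
    | true => simp [List.range_succ, this, h]
  | succ i ih =>
    rw [List.range_succ, List.filter_append, List.length_append]
    have h1 : change T P (i + 1) = (tt T P (i + 1) ^^ tt T P i) := by simp [change]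
    cases h2 : tt T P (i + 1) <;> cases h3 : tt T P i <;> rw [h2, h3] at h1 <;> rw [h3] at ih
    · rw [List.filter_cons_of_neg (by simp [h1])]
      simpa using ih
    · rw [List.filter_cons_of_pos (by simp [h1])]
      simp only [List.filter_nil, List.length_singleton, Nat.odd_add_one, Bool.false_eq_true,
        iff_false, not_not]
      exact ih.2 rfl
    · rw [List.filter_cons_of_pos (by simp [h1])]
      simp only [List.filter_nil, List.length_singleton, Nat.odd_add_one, iff_true]
      intro h4
      exact absurd (ih.1 h4) (by simp)
    · rw [List.filter_cons_of_neg (by simp [h1])]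
      simpa using ih

theorem filter_range_le {n i : ℕ} (h : i < n) :
    (List.range n).filter (fun j => decide (j ≤ i)) = List.range (i + 1) := by
  obtain ⟨m, rfl⟩ : ∃ m, n = (i + 1) + m := ⟨n - (i + 1), by omega⟩
  rw [List.range_add, List.filter_append]
  have h1 : (List.range (i + 1)).filter (fun j => decide (j ≤ i)) = List.range (i + 1) := by
    rw [List.filter_eq_self]
    intro a ha
    rw [List.mem_range] at ha
    simp only [decide_eq_true_eq]
    omega
  have h2 : (List.map (fun x => i + 1 + x) (List.range m)).filter (fun j => decide (j ≤ i)) = [] := by
    rw [List.filter_eq_nil_iff]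
    intro a ha
    rw [List.mem_map] at ha
    obtain ⟨b, -, rfl⟩ := ha
    simp only [decide_eq_true_eq]
    omega
  rw [h1, h2, List.append_nil]

/-- Correctness of the levels. -/
theorem levels_correct {k : ℕ} {S : Set (List Bool)}
    {r : List (List (List Bool)) × List (List Bool)} (hr : r.1.length ≤ k) :
    Odd (leading (Clauses k S) (levels k r)) ↔ val S r.1 ∈ r.2 := by
  obtain ⟨Zs, T⟩ := r
  simp only at hr ⊢
  unfold levels
  simp only
  obtain ⟨i, hi, hiv⟩ := List.getElem_of_mem (mem_pats S k Zs hr)
  have hpw := pats_pairwise k Zs
  rw [List.pairwise_iff_getElem] at hpw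
  rw [leading_sorted (i := i)]
  · rw [List.filter_filter]
    have h1 : (List.range (pats k Zs).length).filter (fun j => decide (j ≤ i) &&
        change T (pats k Zs) j) = (List.range (i + 1)).filter (change T (pats k Zs)) := by
      rw [← filter_range_le hi, List.filter_filter]
      congr 1
      funext j
      rw [Bool.and_comm]
    rw [h1, change_parity]
    unfold tt
    rw [decide_eq_true_eq, List.getD_eq_getElem _ _ hi, hiv]
  · exact List.pairwise_lt_range.filter _
  · intro j _
    have h1 : (∀ s ∈ ((pats k Zs).take j).flatMap (fun y => (expand k y Zs).map (fun C => bits C)),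
        s ∈ Clauses k S) ↔ ∀ y ∈ (pats k Zs).take j, hit y (val S Zs) := by
      constructor
      · intro h y hy
        have hy' : y ∈ pats k Zs := List.mem_of_mem_take hy
        rw [← expand_iff S k y Zs hr (length_of_mem_pats k Zs hr y hy')]
        intro C hC
        rw [← bits_mem_clauses (k := k) (length_of_mem_expand k y Zs C hC)]
        apply h
        rw [List.mem_flatMap]
        exact ⟨y, hy, List.mem_map.2 ⟨C, hC, rfl⟩⟩
      · intro h s hs
        rw [List.mem_flatMap] at hs
        obtain ⟨y, hy, hs⟩ := hs
        rw [List.mem_map] at hs
        obtain ⟨C, hC, rfl⟩ := hs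
        have hy' : y ∈ pats k Zs := List.mem_of_mem_take hy
        rw [bits_mem_clauses (k := k) (length_of_mem_expand k y Zs C hC)]
        exact (expand_iff S k y Zs hr (length_of_mem_pats k Zs hr y hy')).2 (h y hy) C hC
    rw [h1]
    constructor
    · intro h
      by_contra hcon
      have h2 := h (val S Zs) (by
        rw [List.mem_take_iff_getElem]
        exact ⟨i, by omega, hiv⟩)
      exact hit_irrefl _ h2
    · intro hj y hy
      rw [List.mem_take_iff_getElem] at hy
      obtain ⟨a, ha, rfl⟩ := hy
      rw [← hiv]
      exact hpw a i (by omega) hi (by omega)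

theorem length_levels (k : ℕ) (r : List (List (List Bool)) × List (List Bool)) :
    (levels k r).length ≤ 2 ^ k := by
  unfold levels
  rw [List.length_map]
  refine (List.length_filter_le _ _).trans ?_
  rw [List.length_range]
  exact length_pats k r.1

/-! ### Polynomial time -/

theorem poly_pats (k : ℕ) : Poly (pats k) := by
  induction k with
  | zero => exact NPC.Poly.const _
  | succ k ih =>
    have : Poly (fun Zs : List (List (List Bool)) => Zs.head?.elim [[]] (fun _ =>
        (pats k Zs.tail).map (fun y => false :: y) ++
          (pats k Zs.tail).map (fun y => true :: y))) := by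
      refine Poly.optElim (o := fun Zs : List (List (List Bool)) => Zs.head?)
        (g := fun _ => [[]]) (h := fun Zs _ => (pats k Zs.tail).map (fun y => false :: y) ++
          (pats k Zs.tail).map (fun y => true :: y)) (by fun_prop) (NPC.Poly.const _) ?_
      have h1 : Poly (fun t : List (List (List Bool)) × List (List Bool) => pats k t.1.tail) :=
        ih.comp (by fun_prop)
      exact Poly.append
        (NPC.Poly.map (F := fun (_ : List (List (List Bool)) × List (List Bool)) (y : List Bool) =>
          false :: y) h1 (by fun_prop))
        (NPC.Poly.map (F := fun (_ : List (List (List Bool)) × List (List Bool)) (y : List Bool) =>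
          true :: y) h1 (by fun_prop))
    exact this

theorem poly_expand (k : ℕ) :
    Poly (fun t : List Bool × List (List (List Bool)) => expand k t.1 t.2) := by
  induction k with
  | zero => exact NPC.Poly.const _
  | succ k ih =>
    have : Poly (fun t : List Bool × List (List (List Bool)) => t.2.head?.elim [[]] (fun Z =>
        bif t.1.head?.getD true then expand k t.1.tail t.2.tail
        else Z.flatMap (fun z => (expand k t.1.tail t.2.tail).map (fun C => z :: C)))) := by
      refine Poly.optElim (o := fun t : List Bool × List (List (List Bool)) => t.2.head?)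
        (g := fun _ => [[]]) (h := fun t Z =>
          bif t.1.head?.getD true then expand k t.1.tail t.2.tail
          else Z.flatMap (fun z => (expand k t.1.tail t.2.tail).map (fun C => z :: C)))
        (by fun_prop) (NPC.Poly.const _) ?_
      refine Poly.cond (Poly.head?_getD (by fun_prop) true) ?_ ?_
      · exact Poly.comp (g := fun t : List Bool × List (List (List Bool)) => expand k t.1 t.2)
          (f := fun s : (List Bool × List (List (List Bool))) × List (List Bool) =>
            (s.1.1.tail, s.1.2.tail)) ih (by fun_prop)
      · refine Poly.flatMap (F := fun (s : (List Bool × List (List (List Bool))) ×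
          List (List Bool)) (z : List Bool) =>
            (expand k s.1.1.tail s.1.2.tail).map (fun C => z :: C)) (Poly.snd Poly.id) ?_
        refine NPC.Poly.map (F := fun (s : ((List Bool × List (List (List Bool))) ×
          List (List Bool)) × List Bool) (C : List (List Bool)) => s.2 :: C) ?_ (by fun_prop)
        exact Poly.comp (g := fun t : List Bool × List (List (List Bool)) => expand k t.1 t.2)
          (f := fun s : ((List Bool × List (List (List Bool))) × List (List Bool)) × List Bool =>
            (s.1.1.1.tail, s.1.1.2.tail)) ih (by fun_prop)
    exact this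

theorem poly_bitsOf {α : Type} [TEnc α] : Poly (fun a : α => bits a) := by
  have h0 : PC (fun x : List Bool => x) (fun x : List Bool => x) (fun x => x) := PC.id
  have h1 : PC (bits : α → List Bool) (fun x : List Bool => x) (fun a => bits a) := by
    obtain ⟨c, p, h⟩ := h0
    exact ⟨c, p, fun a => h (bits a)⟩
  exact PC.comp (g := fun x => x) (f := fun a : α => bits a) PC.rawIn h1

theorem poly_change : Poly (fun t : (List (List Bool) × List (List Bool)) × ℕ =>
    change t.1.1 t.1.2 t.2) := by
  have h : ∀ f : (List (List Bool) × List (List Bool)) × ℕ → ℕ, Poly f →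
      Poly (fun t : (List (List Bool) × List (List Bool)) × ℕ => tt t.1.1 t.1.2 (f t)) := by
    intro f hf
    unfold tt
    exact (Poly.decide_mem (Poly.getD (Poly.snd (Poly.fst Poly.id)) hf (NPC.Poly.const []))
      (Poly.fst (Poly.fst Poly.id))).congr fun t => decide_eq_decide.2 Iff.rfl
  unfold change
  refine Poly.xor (h _ (Poly.snd Poly.id)) (Poly.cond (Poly.decide_eq (Poly.snd Poly.id)
    (NPC.Poly.const _)) (NPC.Poly.const _) (h _ (Poly.sub (Poly.snd Poly.id) (NPC.Poly.const _))))

theorem poly_levels (k : ℕ) : Poly (levels k) := by
  unfold levels
  have hP : Poly (fun r : List (List (List Bool)) × List (List Bool) => pats k r.1) :=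
    (poly_pats k).comp (Poly.fst Poly.id)
  refine NPC.Poly.map (F := fun (r : List (List (List Bool)) × List (List Bool)) (j : ℕ) =>
    ((pats k r.1).take j).flatMap (fun y => (expand k y r.1).map (fun C => bits C))) ?_ ?_
  · refine Poly.filter (p := fun (r : List (List (List Bool)) × List (List Bool)) (j : ℕ) =>
      change r.2 (pats k r.1) j) (Poly.range_length hP) ?_
    exact Poly.comp (g := fun t : (List (List Bool) × List (List Bool)) × ℕ =>
        change t.1.1 t.1.2 t.2)
      (f := fun s : (List (List (List Bool)) × List (List Bool)) × ℕ =>
        ((s.1.2, pats k s.1.1), s.2)) poly_change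
      (Poly.pair (Poly.pair (by fun_prop) (hP.comp (Poly.fst Poly.id))) (Poly.snd Poly.id))
  · refine Poly.flatMap (F := fun (s : (List (List (List Bool)) × List (List Bool)) × ℕ)
      (y : List Bool) => (expand k y s.1.1).map (fun C => bits C))
      (Clo.poly_take (hP.comp (Poly.fst Poly.id)) (Poly.snd Poly.id)) ?_
    refine NPC.Poly.map (F := fun (_ : ((List (List (List Bool)) × List (List Bool)) × ℕ) ×
      List Bool) (C : List (List Bool)) => bits C) ?_ ?_
    · exact Poly.comp (g := fun t : List Bool × List (List (List Bool)) => expand k t.1 t.2)
        (f := fun s : ((List (List (List Bool)) × List (List Bool)) × ℕ) × List Bool =>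
          (s.2, s.1.1.1)) (poly_expand k) (by fun_prop)
    · exact poly_bitsOf.comp (Poly.snd Poly.id)

end Pool.Agent.H334R5.Lin
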