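import Pool.Agent.NPC.Dec

/-!
# Languages defined by linear equations modulo a prime; bounded Boolean combinations of
conjunctive queries

Polynomial time is Mathlib's `Turing.TM2ComputableInPolyTime` (through `Pool.Agent.NPC.PolyTime`).
-/

set_option autoImplicit false

namespace Pool.Agent.H334R5.Lin

open Pool.Agent.NPC

/-- The value `∑ᵢ wᵢ vᵢ` modulo `p` of the linear form with coefficients `w` at the vector `v`. -/
def dot {p : ℕ} (w : ℕ → ZMod p) (v : List ℕ) : ZMod p :=
  (v.zipIdx.map (fun e => w e.2 * (e.1 : ZMod p))).sum

/-- The set `S` is defined by linear equations modulo `p`: there are a polynomial-time computable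
map `φ` from strings to vectors of natural numbers and an arbitrary set `H` of linear equations
(there is no bound on the complexity of `H`), such that `z ∈ S` iff the vector `φ z` satisfies all
the equations in `H` modulo `p`. -/
def LinearlyDefined (p : ℕ) (S : Set (List Bool)) : Prop :=
  ∃ (φ : List Bool → List ℕ) (H : Set (ℕ → ZMod p)), PolyTime (fun z => bits (φ z)) ∧
    ∀ z, z ∈ S ↔ ∀ w ∈ H, dot w (φ z) = 0

/-- The bitwise sum modulo 2 of two strings. -/
def xorL (x y : List Bool) : List Bool := List.zipWith xor x y

/-- The set `S` is closed under the bitwise sum `x ⊕ y ⊕ z` of strings of the same length. -/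
def XorClosed (S : Set (List Bool)) : Prop :=
  ∀ x ∈ S, ∀ y ∈ S, ∀ z ∈ S, x.length = y.length → y.length = z.length →
    xorL x (xorL y z) ∈ S

open Classical in
/-- `A` reduces to `S` by a polynomial-time reduction which is a Boolean combination of `k`
conjunctive queries: a polynomial-time computable function `r` maps each string `x` to a list
`[Z₁, ..., Zₘ]` of `m ≤ k` lists of strings, and a list of bit patterns of accepted answers; and
`x ∈ A` iff the pattern of the answers to the questions whether `Zᵢ ⊆ S` is accepted. -/
def BoolConjReduces (k : ℕ) (A S : Set (List Bool)) : Prop :=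
  ∃ r : List Bool → List (List (List Bool)) × List (List Bool), PolyTime (fun x => bits (r x)) ∧
    ∀ x, (r x).1.length ≤ k ∧
      (x ∈ A ↔ (r x).1.map (fun Z => decide (∀ y ∈ Z, y ∈ S)) ∈ (r x).2)

end Pool.Agent.H334R5.Lin
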