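import Pool.Agent.H334R5.Lin.Feat
import Pool.Agent.H334R5.Lin.Defs

/-!
# Clauses: the disjunctions of at most `k` queries to a linearly defined set
-/

set_option autoImplicit false

namespace Pool.Agent.H334R5.Lin

open Pool.Agent.NPC Pool.Agent.H334R5.Nest

/-- The tensor product of the vectors of a clause. -/
def tens (φ : List Bool → List ℕ) : ℕ → List (List Bool) → List (List ℕ × ℕ)
  | 0, _ => [([], 1)]
  | k + 1, C => C.head?.elim [([], 1)] (fun z => (φ z).zipIdx.flatMap (fun e =>
      (tens φ k C.tail).map (fun l => (e.2 :: l.1, e.1 * l.2))))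

/-- The features of a string coding a clause of length at most `k`. -/
def feat (φ : List Bool → List ℕ) (k : ℕ) (s : List Bool) : List (List ℕ × ℕ) :=
  (unbits (List (List Bool)) s).elim [] (fun C => bif decide (C.length ≤ k) then tens φ k C else [])

/-- The strings coding a true clause, or no clause of length at most `k`. -/
def Clauses (k : ℕ) (S : Set (List Bool)) : Set (List Bool) :=
  {s | ∀ C : List (List Bool), unbits (List (List Bool)) s = some C → C.length ≤ k →
    ∃ z ∈ C, z ∈ S}

variable {p : ℕ}

/-- The coefficients of the product of linear forms. -/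
def gw (p : ℕ) : List (ℕ → ZMod p) → List ℕ → ZMod p
  | [], [] => 1
  | w :: ws, i :: l => w i * gw p ws l
  | [], _ :: _ => 0
  | _ :: _, [] => 0

/-- The product of the values. -/
def pr (φ : List Bool → List ℕ) : List (ℕ → ZMod p) → List (List Bool) → ZMod p
  | [], [] => 1
  | w :: ws, z :: C => dot w (φ z) * pr φ ws C
  | [], _ :: _ => 0
  | _ :: _, [] => 0

/-- The evaluation of the product form. -/
def ev (ws : List (ℕ → ZMod p)) (v : List (List ℕ × ℕ)) : ZMod p :=
  (v.map (fun e => (e.2 : ZMod p) * gw p ws e.1)).sum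

theorem ev_append (ws : List (ℕ → ZMod p)) (v v' : List (List ℕ × ℕ)) :
    ev ws (v ++ v') = ev ws v + ev ws v' := by
  simp [ev]

theorem linearCombination_vec (ws : List (ℕ → ZMod p)) (v : List (List ℕ × ℕ)) :
    Finsupp.linearCombination (ZMod p) (gw p ws) (vec p v) = ev ws v := by
  induction v with
  | nil => simp [vec, ev]
  | cons e v ih =>
    rw [vec_cons, map_add, ih, Finsupp.linearCombination_single]
    simp [ev]

theorem ev_map (w : ℕ → ZMod p) (ws : List (ℕ → ZMod p)) (e : ℕ × ℕ) (v : List (List ℕ × ℕ)) :
    ev (w :: ws) (v.map (fun l => (e.2 :: l.1, e.1 * l.2))) = w e.2 * (e.1 : ZMod p) * ev ws v := by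
  induction v with
  | nil => simp [ev]
  | cons l v ih =>
    have h1 : ∀ (ws : List (ℕ → ZMod p)) (l : List ℕ × ℕ) (v : List (List ℕ × ℕ)),
        ev ws (l :: v) = (l.2 : ZMod p) * gw p ws l.1 + ev ws v := by
      intro ws l v; simp [ev]
    rw [List.map_cons, h1, ih, h1]
    simp only [gw]
    push_cast
    ring

theorem ev_map_nil (e : ℕ × ℕ) (v : List (List ℕ × ℕ)) :
    ev ([] : List (ℕ → ZMod p)) (v.map (fun l => (e.2 :: l.1, e.1 * l.2))) = 0 := by
  induction v with
  | nil => simp [ev]
  | cons l v ih =>
    have h1 : ∀ (ws : List (ℕ → ZMod p)) (l : List ℕ × ℕ) (v : List (List ℕ × ℕ)),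
        ev ws (l :: v) = (l.2 : ZMod p) * gw p ws l.1 + ev ws v := by
      intro ws l v; simp [ev]
    rw [List.map_cons, h1, ih]
    simp [gw]

theorem ev_tens (φ : List Bool → List ℕ) : ∀ (k : ℕ) (C : List (List Bool)), C.length ≤ k →
    ∀ ws : List (ℕ → ZMod p), ev ws (tens φ k C) = pr φ ws C := by
  intro k
  induction k with
  | zero =>
    intro C hC ws
    obtain rfl : C = [] := List.length_eq_zero_iff.1 (by omega)
    cases ws <;> simp [tens, ev, pr, gw]
  | succ k ih =>
    intro C hC ws
    cases C with
    | nil => cases ws <;> simp [tens, ev, pr, gw]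
    | cons z C =>
      simp only [List.length_cons] at hC
      unfold tens
      simp only [List.head?_cons, Option.elim_some, List.tail_cons]
      cases ws with
      | nil =>
        simp only [pr]
        induction (φ z).zipIdx with
        | nil => simp [ev]
        | cons e v ihv => rw [List.flatMap_cons, ev_append, ev_map_nil, ihv, add_zero]
      | cons w ws =>
        simp only [pr]
        rw [← ih C (by omega) ws]
        unfold dot
        induction (φ z).zipIdx with
        | nil => simp [ev]
        | cons e v ihv =>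
          rw [List.flatMap_cons, ev_append, ev_map, ihv, List.map_cons, List.sum_cons]
          ring

theorem pr_zero_of {φ : List Bool → List ℕ} : ∀ (ws : List (ℕ → ZMod p)) (C : List (List Bool)),
    (∃ z ∈ C, ∀ w ∈ ws, dot w (φ z) = 0) → pr φ ws C = 0 := by
  intro ws
  induction ws with
  | nil =>
    intro C h
    cases C with
    | nil => simp at h
    | cons z C => rfl
  | cons w ws ih =>
    intro C h
    cases C with
    | nil => rfl
    | cons z C =>
      obtain ⟨y, hy, hw⟩ := h
      simp only [pr]
      rcases List.mem_cons.1 hy with rfl | hy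
      · rw [hw w (by simp), zero_mul]
      · rw [ih C ⟨y, hy, fun w' hw' => hw w' (List.mem_cons_of_mem _ hw')⟩, mul_zero]

theorem pr_ne_zero_of [Fact p.Prime] {φ : List Bool → List ℕ} {H : Set (ℕ → ZMod p)} :
    ∀ C : List (List Bool), (∀ z ∈ C, ∃ w ∈ H, dot w (φ z) ≠ 0) →
    ∃ ws : List (ℕ → ZMod p), (∀ w ∈ ws, w ∈ H) ∧ pr φ ws C ≠ 0 := by
  intro C
  induction C with
  | nil => intro _; exact ⟨[], by simp, by simp [pr]⟩
  | cons z C ih =>
    intro h
    obtain ⟨ws, h1, h2⟩ := ih (fun y hy => h y (List.mem_cons_of_mem _ hy))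
    obtain ⟨w, h3, h4⟩ := h z (by simp)
    refine ⟨w :: ws, ?_, ?_⟩
    · intro w' hw'
      rcases List.mem_cons.1 hw' with rfl | hw'
      · exact h3
      · exact h1 w' hw'
    · simp only [pr]
      exact mul_ne_zero h4 h2

/-- The set of true clauses is defined by the products of linear forms. -/
theorem mem_clauses [Fact p.Prime] {φ : List Bool → List ℕ} {H : Set (ℕ → ZMod p)}
    {S : Set (List Bool)} (hS : ∀ z, z ∈ S ↔ ∀ w ∈ H, dot w (φ z) = 0) (k : ℕ) (s : List Bool) :
    s ∈ Clauses k S ↔
      ∀ h ∈ {h : (List ℕ →₀ ZMod p) →ₗ[ZMod p] ZMod p | ∃ ws : List (ℕ → ZMod p),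
        (∀ w ∈ ws, w ∈ H) ∧ h = Finsupp.linearCombination (ZMod p) (gw p ws)},
      h (vec p (feat φ k s)) = 0 := by
  constructor
  · rintro hs _ ⟨ws, hws, rfl⟩
    rw [linearCombination_vec]
    unfold feat
    cases hu : unbits (List (List Bool)) s with
    | none => simp [ev]
    | some C =>
      simp only [Option.elim_some]
      by_cases hC : C.length ≤ k
      · rw [decide_eq_true hC, cond_true, ev_tens φ k C hC]
        obtain ⟨z, hz, hzS⟩ := hs C hu hC
        exact pr_zero_of ws C ⟨z, hz, fun w hw => (hS z).1 hzS w (hws w hw)⟩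
      · rw [decide_eq_false hC, cond_false]
        simp [ev]
  · intro h C hu hC
    by_contra hcon
    push Not at hcon
    obtain ⟨ws, h1, h2⟩ := pr_ne_zero_of (φ := φ) (H := H) C (by
      intro z hz
      have := hcon z hz
      rw [hS] at this
      push Not at this
      exact this)
    have h3 := h _ ⟨ws, h1, rfl⟩
    rw [linearCombination_vec] at h3
    unfold feat at h3
    simp only [hu, Option.elim_some, decide_eq_true hC, cond_true] at h3
    rw [ev_tens φ k C hC] at h3
    exact h2 h3

/-- The labels which can occur. -/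
def labF (Q : ℕ) : ℕ → Finset (List ℕ)
  | 0 => {[]}
  | k + 1 => insert [] ((Finset.range Q ×ˢ labF Q k).image (fun x => x.1 :: x.2))

theorem card_labF (Q k : ℕ) : (labF Q k).card ≤ (Q + 1) ^ k := by
  induction k with
  | zero => simp [labF]
  | succ k ih =>
    unfold labF
    refine (Finset.card_insert_le _ _).trans ?_
    have h1 : ((Finset.range Q ×ˢ labF Q k).image (fun x => x.1 :: x.2)).card ≤
        Q * (labF Q k).card := by
      refine Finset.card_image_le.trans ?_
      rw [Finset.card_product, Finset.card_range]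
    have h2 : Q * (labF Q k).card ≤ Q * (Q + 1) ^ k := Nat.mul_le_mul_left _ ih
    have h3 : 1 ≤ (Q + 1) ^ k := Nat.one_le_pow _ _ (by omega)
    have h4 : (Q + 1) ^ (k + 1) = Q * (Q + 1) ^ k + (Q + 1) ^ k := by ring
    omega

theorem nil_mem_labF (Q k : ℕ) : [] ∈ labF Q k := by
  cases k <;> simp [labF]

theorem tens_labels {φ : List Bool → List ℕ} {Q : ℕ} : ∀ (k : ℕ) (C : List (List Bool)),
    (∀ z ∈ C, (φ z).length ≤ Q) → ∀ e ∈ tens φ k C, e.1 ∈ labF Q k := by
  intro k
  induction k with
  | zero =>
    intro C _ e he
    simp only [tens, List.mem_cons, List.not_mem_nil, or_false] at he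
    subst he
    exact nil_mem_labF Q 0
  | succ k ih =>
    intro C hC e he
    unfold tens at he
    cases C with
    | nil =>
      simp only [List.head?_nil, Option.elim_none, List.mem_cons, List.not_mem_nil,
        or_false] at he
      subst he
      exact nil_mem_labF Q (k + 1)
    | cons z C =>
      simp only [List.head?_cons, Option.elim_some, List.tail_cons, List.mem_flatMap,
        List.mem_map] at he
      obtain ⟨e', he', l, hl, rfl⟩ := he
      have h1 := ih C (fun y hy => hC y (List.mem_cons_of_mem _ hy)) l hl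
      have h2 : e'.2 < (φ z).length := by
        obtain ⟨a, i⟩ := e'
        have := List.snd_lt_of_mem_zipIdx he'
        simpa using this
      have h3 := hC z (by simp)
      unfold labF
      rw [Finset.mem_insert, Finset.mem_image]
      right
      refine ⟨(e'.2, l.1), ?_, rfl⟩
      rw [Finset.mem_product, Finset.mem_range]
      exact ⟨by simp only; omega, h1⟩

/-! ### Polynomial time -/

theorem poly_tens {φ : List Bool → List ℕ} (hφ : Poly φ) (k : ℕ) : Poly (tens φ k) := by
  induction k with
  | zero => exact NPC.Poly.const _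
  | succ k ih =>
    have : Poly (fun C : List (List Bool) => C.head?.elim [([], 1)] (fun z =>
        (φ z).zipIdx.flatMap (fun e => (tens φ k C.tail).map
          (fun l => (e.2 :: l.1, e.1 * l.2))))) := by
      refine Poly.optElim (o := fun C : List (List Bool) => C.head?)
        (g := fun _ => [([], 1)]) (h := fun C z => (φ z).zipIdx.flatMap (fun e =>
          (tens φ k C.tail).map (fun l => (e.2 :: l.1, e.1 * l.2)))) (by fun_prop)
        (NPC.Poly.const _) ?_
      refine Poly.flatMap (F := fun (t : List (List Bool) × List Bool) (e : ℕ × ℕ) =>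
        (tens φ k t.1.tail).map (fun l => (e.2 :: l.1, e.1 * l.2)))
        (Poly.zipIdx (hφ.comp (Poly.snd Poly.id))) ?_
      refine NPC.Poly.map (F := fun (t : (List (List Bool) × List Bool) × ℕ × ℕ)
        (l : List ℕ × ℕ) => (t.2.2 :: l.1, t.2.1 * l.2)) ?_ ?_
      · exact ih.comp (by fun_prop)
      · exact Poly.pair (by fun_prop) (Poly.mul (by fun_prop) (by fun_prop))
    exact this

theorem poly_feat {φ : List Bool → List ℕ} (hφ : Poly φ) (k : ℕ) : Poly (feat φ k) := by
  unfold feat
  refine Poly.optElim (o := fun s : List Bool => unbits (List (List Bool)) s)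
    (g := fun _ => []) (h := fun _ C => bif decide (C.length ≤ k) then tens φ k C else [])
    poly_unbits (NPC.Poly.const _) ?_
  exact Poly.cond (Poly.decide_le (Poly.length (Poly.snd Poly.id)) (NPC.Poly.const _))
    ((poly_tens hφ k).comp (Poly.snd Poly.id)) (NPC.Poly.const _)

/-- The rule for clauses has short chains. -/
theorem shortChains_clauses [Fact p.Prime] {φ : List Bool → List ℕ} (hφ : Poly φ) (k : ℕ) :
    ShortChains (fun Z z => ruleB p (feat φ k) Z z = true) := by
  obtain ⟨q, hq⟩ := hφ.sz_le
  refine ⟨(q + 1) ^ k, fun n Z hZ hlen => ?_⟩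
  refine ruleB_chain (feat φ k) (labF (q.eval n) k) Z ?_ ?_
  · intro s hs e he
    unfold feat at he
    cases hu : unbits (List (List Bool)) s with
    | none => rw [hu] at he; simp at he
    | some C =>
      simp only [hu, Option.elim_some] at he
      by_cases hC : C.length ≤ k
      · rw [decide_eq_true hC, cond_true] at he
        refine tens_labels k C (fun z hz => ?_) e he
        have h1 : bits C = s := bits_of_unbits hu
        have h2 : sz C ≤ n := by
          rw [← bits_length, h1]
          exact hZ s hs
        have h3 : sz z < sz C := sz_le_of_mem hz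
        exact (length_lt_sz (φ z)).le.trans ((hq z).trans (eval_mono q (by omega)))
      · rw [decide_eq_false hC, cond_false] at he
        simp at he
  · refine lt_of_le_of_lt (card_labF _ _) ?_
    simpa using hlen

theorem inPP_clauses [Fact p.Prime] {φ : List Bool → List ℕ} (hφ : Poly φ) (k : ℕ) :
    InPP (fun t : List (List Bool) × List Bool => ruleB p (feat φ k) t.1 t.2 = true) :=
  inPP_of (poly_ruleB (Fact.out : p.Prime).pos (poly_feat hφ k)) (fun _ => Iff.rfl)

end Pool.Agent.H334R5.Lin
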