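import Pool.Agent.H334R5.Lin.Span
import Pool.Agent.H334R5.Nest.Defs
import Pool.Agent.H671R2.PolyAuto

/-!
# The rule of linear consequence modulo a prime, through a feature map
-/

set_option autoImplicit false

namespace Pool.Agent.H334R5.Lin

open Pool.Agent.NPC Pool.Agent.H334R5.Nest

section Vec

variable {Λ : Type} [DecidableEq Λ] (p : ℕ)

/-- A list of labels with coefficients as a formal combination modulo `p`. -/
noncomputable def vec (v : List (Λ × ℕ)) : Λ →₀ ZMod p :=
  (v.map (fun e => Finsupp.single e.1 (e.2 : ZMod p))).sum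

/-- The coefficient of a label. -/
def coef (v : List (Λ × ℕ)) (u : Λ) : ℕ := ((v.filter (fun e => decide (e.1 = u))).map Prod.snd).sum

/-- The list of the coefficients of the labels in `U`. -/
def dense (U : List Λ) (v : List (Λ × ℕ)) : List ℕ := U.map (fun u => coef v u % p)

/-- All labels. -/
def labs (feat : List Bool → List (Λ × ℕ)) (Z : List (List Bool)) (z : List Bool) : List Λ :=
  Z.flatMap (fun y => (feat y).map Prod.fst) ++ (feat z).map Prod.fst

/-- The rule of linear consequence: the features of `z` are a linear combination of the features of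
the members of `Z`. -/
def ruleB (feat : List Bool → List (Λ × ℕ)) (Z : List (List Bool)) (z : List Bool) : Bool :=
  ((estep p)^[(labs feat Z z).length] (Z.map (fun y => dense p (labs feat Z z) (feat y)),
    dense p (labs feat Z z) (feat z), true)).2.2

variable {p}

theorem vec_nil : vec p ([] : List (Λ × ℕ)) = 0 := rfl

theorem vec_cons (e : Λ × ℕ) (v : List (Λ × ℕ)) :
    vec p (e :: v) = Finsupp.single e.1 (e.2 : ZMod p) + vec p v := by
  simp [vec]

theorem vec_apply (v : List (Λ × ℕ)) (u : Λ) : vec p v u = (coef v u : ZMod p) := by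
  induction v with
  | nil => simp [vec, coef]
  | cons e v ih =>
    rw [vec_cons, Finsupp.add_apply, ih, Finsupp.single_apply]
    unfold coef
    by_cases h : e.1 = u
    · rw [List.filter_cons_of_pos (by simpa using h)]
      simp [h]
    · rw [List.filter_cons_of_neg (by simpa using h)]
      simp [h]

theorem vec_eq_zero_of_notMem {v : List (Λ × ℕ)} {u : Λ} (h : u ∉ v.map Prod.fst) :
    vec p v u = 0 := by
  induction v with
  | nil => simp [vec]
  | cons e v ih =>
    rw [List.map_cons, List.mem_cons, not_or] at h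
    rw [vec_cons, Finsupp.add_apply, ih h.2, Finsupp.single_apply, if_neg (Ne.symm h.1), add_zero]

/-- The coordinates in `U`. -/
noncomputable def coord (U : List Λ) : (Λ →₀ ZMod p) →ₗ[ZMod p] (ℕ → ZMod p) :=
  LinearMap.pi (fun i => (U[i]?).elim 0 (fun u => Finsupp.lapply u))

theorem toV_dense (U : List Λ) (v : List (Λ × ℕ)) : toV p (dense p U v) = coord U (vec p v) := by
  funext i
  unfold toV dense coord
  rw [LinearMap.pi_apply]
  by_cases hi : i < U.length
  · rw [List.getD_eq_getElem _ _ (by simpa using hi), List.getElem?_eq_getElem hi]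
    simp [vec_apply]
  · rw [List.getD_eq_default _ _ (by simpa using hi), List.getElem?_eq_none (by omega)]
    simp

theorem wf_dense (hp : 0 < p) (U : List Λ) (v : List (Λ × ℕ)) : WF p U.length (dense p U v) := by
  refine ⟨by simp [dense], fun a ha => ?_⟩
  unfold dense at ha
  rw [List.mem_map] at ha
  obtain ⟨u, -, rfl⟩ := ha
  exact Nat.mod_lt _ hp

theorem span_coord_iff (U : List Λ) {F : Set (Λ →₀ ZMod p)} {t : Λ →₀ ZMod p}
    (hF : ∀ f ∈ F, ∀ u, u ∉ U → f u = 0) (ht : ∀ u, u ∉ U → t u = 0) :
    t ∈ Submodule.span (ZMod p) F ↔ coord U t ∈ Submodule.span (ZMod p) (coord U '' F) := by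
  rw [Submodule.span_image, Submodule.mem_map]
  constructor
  · intro h
    exact ⟨t, h, rfl⟩
  · rintro ⟨g, hg, h⟩
    have hg0 : ∀ u, u ∉ U → g u = 0 := by
      intro u hu
      have : Submodule.span (ZMod p) F ≤
          LinearMap.ker (Finsupp.lapply u : (Λ →₀ ZMod p) →ₗ[ZMod p] ZMod p) := by
        rw [Submodule.span_le]
        intro f hf
        simpa using hF f hf u hu
      simpa using this hg
    have : g = t := by
      ext u
      by_cases hu : u ∈ U
      · obtain ⟨i, hi, rfl⟩ := List.getElem_of_mem hu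
        have := congrFun h i
        unfold coord at this
        rw [LinearMap.pi_apply, LinearMap.pi_apply, List.getElem?_eq_getElem hi] at this
        simpa using this
      · rw [hg0 u hu, ht u hu]
    rwa [← this]

/-- The meaning of the rule. -/
theorem ruleB_iff [Fact p.Prime] (feat : List Bool → List (Λ × ℕ)) (Z : List (List Bool))
    (z : List Bool) : ruleB p feat Z z = true ↔
      vec p (feat z) ∈ Submodule.span (ZMod p) ((fun y => vec p (feat y)) '' {y | y ∈ Z}) := by
  have hp : 0 < p := (Fact.out : p.Prime).pos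
  unfold ruleB
  rw [estep_iter (labs feat Z z).length _ _ _ (by
    intro v hv
    rw [List.mem_map] at hv
    obtain ⟨y, -, rfl⟩ := hv
    exact wf_dense hp _ _) (wf_dense hp _ _)]
  simp only [true_and]
  have himg : toV p '' {v | v ∈ Z.map (fun y => dense p (labs feat Z z) (feat y))} =
      coord (labs feat Z z) '' ((fun y => vec p (feat y)) '' {y | y ∈ Z}) := by
    ext f
    simp only [Set.mem_image, Set.mem_ofPred_eq, List.mem_map]
    constructor
    · rintro ⟨_, ⟨w, hw, rfl⟩, rfl⟩
      exact ⟨_, ⟨w, hw, rfl⟩, (toV_dense _ _).symm⟩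
    · rintro ⟨_, ⟨w, hw, rfl⟩, rfl⟩
      exact ⟨_, ⟨w, hw, rfl⟩, toV_dense _ _⟩
  rw [himg, toV_dense]
  refine (span_coord_iff _ ?_ ?_).symm
  · rintro _ ⟨y, hy, rfl⟩ u hu
    apply vec_eq_zero_of_notMem
    intro h
    apply hu
    unfold labs
    rw [List.mem_append, List.mem_flatMap]
    exact Or.inl ⟨y, hy, h⟩
  · intro u hu
    apply vec_eq_zero_of_notMem
    intro h
    apply hu
    unfold labs
    rw [List.mem_append]
    exact Or.inr h

theorem ruleB_mono [Fact p.Prime] (feat : List Bool → List (Λ × ℕ)) :
    MonotoneRule (fun Z z => ruleB p feat Z z = true) := by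
  intro Z Z' z hZ h
  show ruleB p feat Z' z = true
  rw [ruleB_iff] at h ⊢
  exact Submodule.span_mono (Set.image_mono fun y hy => hZ hy) h

/-- Sets defined by linear functionals are closed under the rule. -/
theorem ruleB_closed [Fact p.Prime] (feat : List Bool → List (Λ × ℕ)) {S : Set (List Bool)}
    (H : Set ((Λ →₀ ZMod p) →ₗ[ZMod p] ZMod p))
    (hS : ∀ z, z ∈ S ↔ ∀ h ∈ H, h (vec p (feat z)) = 0) :
    ClosedUnder (fun Z z => ruleB p feat Z z = true) S := by
  intro Z z hZ h
  have h' : ruleB p feat Z z = true := h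
  rw [ruleB_iff] at h'
  rw [hS]
  intro f hf
  have : Submodule.span (ZMod p) ((fun y => vec p (feat y)) '' {y | y ∈ Z}) ≤
      LinearMap.ker f := by
    rw [Submodule.span_le]
    rintro _ ⟨y, hy, rfl⟩
    exact (hS y).1 (hZ y hy) f hf
  exact this h'

/-- The length of chains is bounded by the number of labels. -/
theorem ruleB_chain [Fact p.Prime] (feat : List Bool → List (Λ × ℕ)) (F : Finset Λ)
    (Z : List (List Bool)) (hF : ∀ z ∈ Z, ∀ e ∈ feat z, e.1 ∈ F) (hlen : F.card < Z.length) :
    ∃ (A : List (List Bool)) (z : List Bool) (B : List (List Bool)), Z = A ++ z :: B ∧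
      ruleB p feat A z = true := by
  by_contra hcon
  push Not at hcon
  have key : ∀ A : List (List Bool), A <+: Z → A.length ≤
      Module.finrank (ZMod p) (Submodule.span (ZMod p) ((fun y => vec p (feat y)) '' {y | y ∈ A}))
      := by
    intro A
    induction A using List.reverseRecOn with
    | nil => intro _; simp
    | append_singleton A z ih =>
      intro hpre
      obtain ⟨B, hB⟩ := hpre
      have h1 := ih ⟨z :: B, by rw [← hB]; simp⟩
      have h2 := hcon A z B (by rw [← hB]; simp)
      rw [Ne, ruleB_iff] at h2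
      have hfin : ((fun y => vec p (feat y)) '' {y | y ∈ A ++ [z]}).Finite :=
        (List.finite_toSet (A ++ [z])).image _
      haveI : FiniteDimensional (ZMod p) (Submodule.span (ZMod p)
          ((fun y => vec p (feat y)) '' {y | y ∈ A ++ [z]})) :=
        FiniteDimensional.span_of_finite _ hfin
      have h3 : Submodule.span (ZMod p) ((fun y => vec p (feat y)) '' {y | y ∈ A}) <
          Submodule.span (ZMod p) ((fun y => vec p (feat y)) '' {y | y ∈ A ++ [z]}) := by
        refine lt_of_le_of_ne (Submodule.span_mono (Set.image_mono fun y hy => by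
          simp only [Set.mem_ofPred_eq] at hy ⊢
          exact List.mem_append_left _ hy)) fun heq => h2 ?_
        rw [heq]
        exact Submodule.subset_span ⟨z, by simp, rfl⟩
      have h4 := Submodule.finrank_lt_finrank_of_lt h3
      simp only [List.length_append, List.length_singleton]
      omega
  have h1 := key Z (List.prefix_refl _)
  have h2 : Submodule.span (ZMod p) ((fun y => vec p (feat y)) '' {y | y ∈ Z}) ≤
      Finsupp.supported (ZMod p) (ZMod p) (F : Set Λ) := by
    rw [Submodule.span_le]
    rintro _ ⟨y, hy, rfl⟩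
    rw [SetLike.mem_coe, Finsupp.mem_supported']
    intro u hu
    apply vec_eq_zero_of_notMem
    intro h
    rw [List.mem_map] at h
    obtain ⟨e, he, rfl⟩ := h
    exact hu (hF y hy e he)
  haveI : FiniteDimensional (ZMod p) (Finsupp.supported (ZMod p) (ZMod p) (F : Set Λ)) :=
    Module.Finite.equiv (Finsupp.supportedEquivFinsupp (F : Set Λ)).symm
  have h3 := Submodule.finrank_mono h2
  have h4 : Module.finrank (ZMod p) (Finsupp.supported (ZMod p) (ZMod p) (F : Set Λ)) = F.card := by
    rw [(Finsupp.supportedEquivFinsupp (F : Set Λ)).finrank_eq, Module.finrank_finsupp_self]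
    simp
  omega

end Vec

/-! ### Polynomial time -/

section PolyPart

variable {Λ : Type} [DecidableEq Λ] [TEnc Λ] {p : ℕ}

theorem poly_coef : Poly (fun t : List (Λ × ℕ) × Λ => coef t.1 t.2) := by
  unfold coef
  refine Poly.sum (NPC.Poly.map (F := fun (_ : List (Λ × ℕ) × Λ) (e : Λ × ℕ) => e.2) ?_ (by fun_prop))
  exact Poly.filter (p := fun (t : List (Λ × ℕ) × Λ) (e : Λ × ℕ) => decide (e.1 = t.2))
    (Poly.fst Poly.id) (Poly.decide_eq (by fun_prop) (by fun_prop))

theorem poly_dense : Poly (fun t : List Λ × List (Λ × ℕ) => dense p t.1 t.2) := by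
  unfold dense
  refine NPC.Poly.map (F := fun (t : List Λ × List (Λ × ℕ)) u => coef t.2 u % p) (Poly.fst Poly.id) ?_
  refine Poly.mod ?_ (NPC.Poly.const _)
  exact Poly.comp (g := fun t : List (Λ × ℕ) × Λ => coef t.1 t.2)
    (f := fun s : (List Λ × List (Λ × ℕ)) × Λ => (s.1.2, s.2)) poly_coef (by fun_prop)

theorem poly_labs {feat : List Bool → List (Λ × ℕ)} (hfeat : Poly feat) :
    Poly (fun t : List (List Bool) × List Bool => labs feat t.1 t.2) := by
  unfold labs
  refine Poly.append ?_ ?_
  · refine Poly.flatMap (F := fun (_ : List (List Bool) × List Bool) y => (feat y).map Prod.fst)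
      (Poly.fst Poly.id) ?_
    exact NPC.Poly.map (F := fun (_ : (List (List Bool) × List Bool) × List Bool) (e : Λ × ℕ) => e.1)
      (hfeat.comp (Poly.snd Poly.id)) (by fun_prop)
  · exact NPC.Poly.map (F := fun (_ : List (List Bool) × List Bool) (e : Λ × ℕ) => e.1)
      (hfeat.comp (Poly.snd Poly.id)) (by fun_prop)

theorem poly_red : Poly (fun t : List ℕ × List ℕ => red p t.1 t.2) := by
  unfold red
  refine NPC.Poly.map (F := fun (t : List ℕ × List ℕ) (e : ℕ × ℕ) =>
    (hdN t.1 * e.1 + (p - hdN t.2) * e.2) % p) (Poly.zip (by fun_prop) (by fun_prop)) ?_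
  unfold hdN
  refine Poly.mod (Poly.add (Poly.mul ?_ (by fun_prop)) (Poly.mul (Poly.sub (NPC.Poly.const _) ?_)
    (by fun_prop))) (NPC.Poly.const _)
  · exact Poly.head?_getD (by fun_prop) 0
  · exact Poly.head?_getD (by fun_prop) 0

theorem poly_hdN : Poly hdN := by
  unfold hdN
  exact Poly.head?_getD Poly.id 0

theorem poly_pivot : Poly pivot := by
  unfold pivot
  refine Poly.head? (Poly.filter (p := fun (_ : List (List ℕ)) s => !decide (hdN s = 0)) Poly.id ?_)
  exact Poly.not (Poly.decide_eq (poly_hdN.comp (Poly.snd Poly.id)) (NPC.Poly.const _))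

theorem poly_estep : Poly (fun s : List (List ℕ) × List ℕ × Bool => estep p s) := by
  unfold estep
  refine Poly.optElim (o := fun s : List (List ℕ) × List ℕ × Bool => pivot s.1)
    (g := fun s => (s.1.map List.tail, s.2.1.tail, s.2.2 && decide (hdN s.2.1 = 0)))
    (h := fun s pv => (s.1.map (red p pv), red p pv s.2.1, s.2.2))
    (poly_pivot.comp (Poly.fst Poly.id)) ?_ ?_
  · refine Poly.pair ?_ (Poly.pair (by fun_prop) (Poly.and (by fun_prop) (Poly.decide_eq ?_
      (NPC.Poly.const _))))
    · exact NPC.Poly.map (F := fun (_ : List (List ℕ) × List ℕ × Bool) (s : List ℕ) => s.tail)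
        (Poly.fst Poly.id) (by fun_prop)
    · exact poly_hdN.comp (by fun_prop)
  · refine Poly.pair ?_ (Poly.pair ?_ (by fun_prop))
    · refine NPC.Poly.map (F := fun (t : (List (List ℕ) × List ℕ × Bool) × List ℕ) (s : List ℕ) =>
        red p t.2 s) (by fun_prop) ?_
      exact Poly.comp (g := fun t : List ℕ × List ℕ => red p t.1 t.2)
        (f := fun s : ((List (List ℕ) × List ℕ × Bool) × List ℕ) × List ℕ => (s.1.2, s.2)) poly_red
        (by fun_prop)
    · exact Poly.comp (g := fun t : List ℕ × List ℕ => red p t.1 t.2)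
        (f := fun s : (List (List ℕ) × List ℕ × Bool) × List ℕ => (s.2, s.1.2.1)) poly_red
        (by fun_prop)

/-- The rows stay short. -/
theorem estep_wf (hp : 0 < p) (m k : ℕ) (hk : k ≤ m) (L : List (List ℕ)) (t : List ℕ) (ok : Bool)
    (hL : ∀ v ∈ L, WF p m v) (ht : WF p m t) :
    ((estep p)^[k] (L, t, ok)).1.length = L.length ∧
      (∀ v ∈ ((estep p)^[k] (L, t, ok)).1, WF p (m - k) v) ∧
      WF p (m - k) ((estep p)^[k] (L, t, ok)).2.1 := by
  induction k with
  | zero => exact ⟨rfl, hL, ht⟩
  | succ k ih =>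
    obtain ⟨h1, h2, h3⟩ := ih (by omega)
    rw [Function.iterate_succ_apply']
    generalize (estep p)^[k] (L, t, ok) = st at h1 h2 h3 ⊢
    obtain ⟨L', t', ok'⟩ := st
    simp only at h1 h2 h3
    obtain ⟨r, hr⟩ : ∃ r, m - k = r + 1 := ⟨m - k - 1, by omega⟩
    have hr' : m - (k + 1) = r := by omega
    rw [hr] at h2 h3
    rw [hr']
    cases hpv : pivot L' with
    | none =>
      have e1 : estep p (L', t', ok') = (L'.map List.tail, t'.tail, ok' && decide (hdN t' = 0)) := by
        unfold estep
        simp only [hpv, Option.elim_none]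
      rw [e1]
      refine ⟨by simpa using h1, ?_, h3.tail⟩
      intro v hv
      simp only [List.mem_map] at hv
      obtain ⟨w, hw, rfl⟩ := hv
      exact (h2 w hw).tail
    | some pv =>
      have hpL : pv ∈ L' := by
        unfold pivot at hpv
        have := List.mem_of_mem_head? hpv
        rw [List.mem_filter] at this
        exact this.1
      have e1 : estep p (L', t', ok') = (L'.map (red p pv), red p pv t', ok') := by
        unfold estep
        simp only [hpv, Option.elim_some]
      rw [e1]
      refine ⟨by simpa using h1, ?_, h3.red (h2 pv hpL) hp⟩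
      intro v hv
      simp only [List.mem_map] at hv
      obtain ⟨w, hw, rfl⟩ := hv
      exact (h2 w hw).red (h2 pv hpL) hp

theorem sz_wf {m : ℕ} {v : List ℕ} (h : WF p m v) : sz v ≤ m * (4 * p + 2) + 1 := by
  have := sz_le_length_mul v (4 * p + 1) (by
    intro a ha
    have h1 := sz_nat_le a
    have h2 := Poly.size_le_self a
    have h3 := h.2 a ha
    omega)
  rw [h.1] at this
  exact this

theorem poly_ruleB (hp : 0 < p) {feat : List Bool → List (Λ × ℕ)} (hfeat : Poly feat) :
    Poly (fun t : List (List Bool) × List Bool => ruleB p feat t.1 t.2) := by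
  unfold ruleB
  have hl := poly_labs hfeat
  obtain ⟨q, hq⟩ := hl.sz_le
  have hs : Poly (fun t : List (List Bool) × List Bool =>
      (t.1.map (fun y => dense p (labs feat t.1 t.2) (feat y)),
        dense p (labs feat t.1 t.2) (feat t.2), true)) := by
    refine Poly.pair ?_ (Poly.pair ?_ (NPC.Poly.const _))
    · refine NPC.Poly.map (F := fun (t : List (List Bool) × List Bool) y =>
        dense p (labs feat t.1 t.2) (feat y)) (Poly.fst Poly.id) ?_
      exact Poly.comp (g := fun t : List Λ × List (Λ × ℕ) => dense p t.1 t.2)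
        (f := fun s : (List (List Bool) × List Bool) × List Bool =>
          (labs feat s.1.1 s.1.2, feat s.2)) poly_dense
        (Poly.pair (hl.comp (Poly.fst Poly.id)) (hfeat.comp (Poly.snd Poly.id)))
    · exact Poly.comp (g := fun t : List Λ × List (Λ × ℕ) => dense p t.1 t.2)
        (f := fun s : List (List Bool) × List Bool => (labs feat s.1 s.2, feat s.2)) poly_dense
        (Poly.pair hl (hfeat.comp (Poly.snd Poly.id)))
  refine Poly.snd (Poly.snd (Poly.iterLen (l := fun t : List (List Bool) × List Bool =>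
      labs feat t.1 t.2)
    (s := fun t : List (List Bool) × List Bool =>
      (t.1.map (fun y => dense p (labs feat t.1 t.2) (feat y)),
        dense p (labs feat t.1 t.2) (feat t.2), true))
    (F := fun _ s => estep p s) hl hs (poly_estep.comp (Poly.snd Poly.id))
    (Polynomial.X * (q * (4 * (p : Polynomial ℕ) + 2) + 2) + 1 +
      (q * (4 * (p : Polynomial ℕ) + 2) + 1) + 5) ?_))
  intro t k hk
  obtain ⟨h1, h2, h3⟩ := estep_wf hp (labs feat t.1 t.2).length k hk
    (t.1.map (fun y => dense p (labs feat t.1 t.2) (feat y)))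
    (dense p (labs feat t.1 t.2) (feat t.2)) true (by
      intro v hv
      rw [List.mem_map] at hv
      obtain ⟨y, -, rfl⟩ := hv
      exact wf_dense hp _ _) (wf_dense hp _ _)
  generalize (estep p)^[k] (t.1.map (fun y => dense p (labs feat t.1 t.2) (feat y)),
    dense p (labs feat t.1 t.2) (feat t.2), true) = st at h1 h2 h3 ⊢
  obtain ⟨L', t', ok'⟩ := st
  simp only at h1 h2 h3
  have h4 : (labs feat t.1 t.2).length ≤ q.eval (sz t) := (length_lt_sz _).le.trans (hq t)
  have h5 : ∀ v : List ℕ, WF p ((labs feat t.1 t.2).length - k) v →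
      sz v ≤ q.eval (sz t) * (4 * p + 2) + 1 := by
    intro v hv
    refine (sz_wf hv).trans ?_
    apply Nat.add_le_add_right
    exact Nat.mul_le_mul_right _ (by omega)
  have h6 := sz_le_length_mul L' _ (fun v hv => h5 v (h2 v hv))
  have h7 := h5 t' h3
  have h8 := sz_bool_le ok'
  have h9 : L'.length ≤ sz t := by
    rw [h1, List.length_map]
    have := length_lt_sz t.1
    obtain ⟨Z, z⟩ := t
    simp only [sz_pair] at this ⊢
    omega
  have h10 : L'.length * (q.eval (sz t) * (4 * p + 2) + 1 + 1) ≤
      sz t * (q.eval (sz t) * (4 * p + 2) + 2) := Nat.mul_le_mul h9 le_rfl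
  simp only [sz_pair, Polynomial.eval_add, Polynomial.eval_mul, Polynomial.eval_one,
    Polynomial.eval_ofNat, Polynomial.eval_X, Polynomial.eval_natCast, Nat.cast_id]
  omega

end PolyPart

end Pool.Agent.H334R5.Lin
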