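import Pool.Agent.H334R5.Lin.Xor

/-!
# The equivalences
-/

set_option autoImplicit false

namespace Pool.Agent.H334R5.Lin

open Pool.Agent.NPC

/-- Every set in `P` reduces to every set, without queries. -/
theorem boolConjReduces_of_inP {A : Set (List Bool)} (hA : InP A) (S : Set (List Bool)) :
    BoolConjReduces 0 A S := by
  obtain ⟨V, hV, hVA⟩ := hA
  have h1 : PC (fun x : List Bool => x) (fun x : List Bool => x) V :=
    H642R2.TMSim.polyTime_toPC hV
  have h2 : PC (fun x : List Bool => x) (bits : List Bool → List Bool) V :=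
    PC.comp (g := fun x => x) (f := V) PC.rawIn h1
  have h3 : Poly (fun v : List Bool => (([] : List (List (List Bool))),
      bif decide (v = [true]) then [([] : List Bool)] else [])) := by
    refine Poly.pair (NPC.Poly.const _) (Poly.cond (Poly.decide_eq Poly.id (NPC.Poly.const _))
      (NPC.Poly.const _) (NPC.Poly.const _))
  refine ⟨fun x => ([], bif decide (V x = [true]) then [[]] else []), ?_, fun x => ?_⟩
  · obtain ⟨c, p, h⟩ := PC.comp (g := fun v : List Bool => (([] : List (List (List Bool))),
      bif decide (v = [true]) then [([] : List Bool)] else [])) (f := V) h3 h2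
    exact PC.toPolyTime ⟨c, p, h⟩
  · refine ⟨le_rfl, ?_⟩
    rw [hVA x]
    by_cases h : V x = [true]
    · simp [h]
    · simp [h]

theorem empty_linearlyDefined (p : ℕ) [Fact p.Prime] : LinearlyDefined p (∅ : Set (List Bool)) := by
  refine ⟨fun _ => [1], {fun _ => 1}, polyTime_bits (NPC.Poly.const _), fun z => ?_⟩
  constructor
  · intro h
    exact absurd h (Set.notMem_empty z)
  · intro h
    have := h (fun _ => 1) rfl
    simp [dot] at this

theorem linear_iff (p : ℕ) (hp : p.Prime) :
    (∃ S : Set (List Bool), LinearlyDefined p S ∧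
      ∀ A : Set (List Bool), InNP A → ∃ k : ℕ, BoolConjReduces k A S) ↔
    ∀ A : Set (List Bool), InNP A → InP A := by
  haveI : Fact p.Prime := ⟨hp⟩
  constructor
  · rintro ⟨S, hS, hard⟩
    exact main hS hard
  · intro h
    exact ⟨∅, empty_linearlyDefined p, fun A hA => ⟨0, boolConjReduces_of_inP (h A hA) _⟩⟩

theorem xor_iff :
    (∃ S : Set (List Bool), XorClosed S ∧
      ∀ A : Set (List Bool), InNP A → ∃ k : ℕ, BoolConjReduces k A S) ↔
    ∀ A : Set (List Bool), InNP A → InP A := by
  haveI : Fact (Nat.Prime 2) := ⟨Nat.prime_two⟩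
  constructor
  · rintro ⟨S, hS, hard⟩
    exact main (xorClosed_linearlyDefined hS) hard
  · intro h
    exact ⟨∅, fun x hx => absurd hx (Set.notMem_empty x),
      fun A hA => ⟨0, boolConjReduces_of_inP (h A hA) _⟩⟩

end Pool.Agent.H334R5.Lin
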