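import Pool.Agent.H334R5.Nest.MainLeft
import Pool.Agent.H334R5.Lin.Conv
import Pool.Agent.H622R2.CoNP

/-!
# Linearly defined sets are not hard for `NP` under bounded Boolean combinations of conjunctive
queries, unless `P = NP`
-/

set_option autoImplicit false

namespace Pool.Agent.H334R5.Lin

open Pool.Agent.NPC Pool.Agent.H334R5.Nest
open Pool.Agent.H251R5.PQ (Ver t_PAD)
open Pool.Agent.H334R5.Clo (Left left_inNPP)

theorem poly_of_polyTime {β : Type} [TEnc β] {f : List Bool → β}
    (hf : PolyTime (fun x => bits (f x))) : Poly f := by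
  obtain ⟨c, p, h⟩ := H642R2.TMSim.polyTime_toPC hf
  have h1 : PC (fun x : List Bool => x) (bits : β → List Bool) f := ⟨c, p, fun a => h a⟩
  exact PC.comp (g := f) (f := fun x : List Bool => x) h1 H622R2.rawOut

/-- The main theorem. -/
theorem main {p : ℕ} [Fact p.Prime] {S : Set (List Bool)} (hS : LinearlyDefined p S)
    (hard : ∀ A : Set (List Bool), InNP A → ∃ k : ℕ, BoolConjReduces k A S) :
    ∀ A : Set (List Bool), InNP A → InP A := by
  intro A hA
  obtain ⟨φ, H, hφ, hφS⟩ := hS
  obtain ⟨V, hV⟩ := t_PAD A hA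
  obtain ⟨k, r, hr, hrS⟩ := hard _ (left_inNPP V)
  have pφ : Poly φ := poly_of_polyTime hφ
  have pr : Poly r := poly_of_polyTime hr
  refine main_left (D' := fun Z z => ruleB p (feat φ k) Z z = true) (S := Clauses k S)
    (inPP_clauses pφ k) (ruleB_mono _) (shortChains_clauses pφ k)
    (ruleB_closed (feat φ k) _ (mem_clauses hφS k)) hV (d := 2 ^ k) ?_
  refine ⟨fun x => levels k (r x), polyTime_bits ((poly_levels k).comp pr), fun x => ?_⟩
  refine ⟨length_levels k (r x), ?_⟩
  rw [levels_correct (hrS x).1, (hrS x).2]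
  rfl

end Pool.Agent.H334R5.Lin
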