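import Mathlib

/-!
# Gaussian elimination modulo a prime, on lists
-/

set_option autoImplicit false

namespace Pool.Agent.H334R5.Lin

variable (p : ℕ)

/-- A list of natural numbers as a vector modulo `p`. -/
def toV (v : List ℕ) : ℕ → ZMod p := fun i => (v.getD i 0 : ZMod p)

/-- The first entry. -/
def hdN (v : List ℕ) : ℕ := v.head?.getD 0

/-- The first row with nonzero first entry. -/
def pivot (L : List (List ℕ)) : Option (List ℕ) := (L.filter (fun s => !decide (hdN s = 0))).head?

/-- Eliminate the first entry. -/
def red (pv s : List ℕ) : List ℕ :=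
  (s.tail.zip pv.tail).map (fun e => (hdN pv * e.1 + (p - hdN s) * e.2) % p)

/-- One step of the elimination. -/
def estep (s : List (List ℕ) × List ℕ × Bool) : List (List ℕ) × List ℕ × Bool :=
  (pivot s.1).elim (s.1.map List.tail, s.2.1.tail, s.2.2 && decide (hdN s.2.1 = 0))
    (fun pv => (s.1.map (red p pv), red p pv s.2.1, s.2.2))

/-- Rows of length `m` with entries less than `p`. -/
def WF (m : ℕ) (v : List ℕ) : Prop := v.length = m ∧ ∀ a ∈ v, a < p

variable {p}

theorem hdN_cons (a : ℕ) (v : List ℕ) : hdN (a :: v) = a := rfl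

theorem toV_zero (a : ℕ) (v : List ℕ) : toV p (a :: v) 0 = (a : ZMod p) := rfl

theorem toV_succ (a : ℕ) (v : List ℕ) (i : ℕ) : toV p (a :: v) (i + 1) = toV p v i := rfl

theorem toV_head (v : List ℕ) : toV p v 0 = (hdN v : ZMod p) := by
  cases v <;> simp [toV, hdN]

theorem WF.tail {m : ℕ} {v : List ℕ} (h : WF p (m + 1) v) : WF p m v.tail := by
  cases v with
  | nil => simp [WF] at h
  | cons a v =>
    refine ⟨by simpa using h.1, fun b hb => h.2 b (List.mem_cons_of_mem _ hb)⟩

theorem WF.red {m : ℕ} {pv v : List ℕ} (h : WF p (m + 1) v) (h' : WF p (m + 1) pv)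
    (hp : 0 < p) : WF p m (red p pv v) := by
  have h1 := h.tail
  have h2 := h'.tail
  unfold Lin.red
  refine ⟨by simp [h1.1, h2.1], fun a ha => ?_⟩
  rw [List.mem_map] at ha
  obtain ⟨e, -, rfl⟩ := ha
  exact Nat.mod_lt _ hp

theorem toV_red {m : ℕ} {pv v : List ℕ} (h : WF p (m + 1) v) (h' : WF p (m + 1) pv) (i : ℕ) :
    toV p (red p pv v) i = (hdN pv : ZMod p) * toV p v (i + 1) - (hdN v : ZMod p) * toV p pv (i + 1)
    := by
  obtain ⟨h1, h2⟩ := h
  obtain ⟨h3, h4⟩ := h'
  cases v with
  | nil => simp at h1
  | cons a v =>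
    cases pv with
    | nil => simp at h3
    | cons b pv =>
      simp only [List.length_cons, Nat.add_right_cancel_iff] at h1 h3
      have ha : a < p := h2 a (by simp)
      unfold Lin.red
      simp only [List.tail_cons, hdN_cons]
      rw [toV_succ, toV_succ]
      unfold toV
      by_cases hi : i < m
      · rw [List.getD_eq_getElem _ _ (by simp [h1, h3, hi]), List.getD_eq_getElem _ _ (by omega),
          List.getD_eq_getElem _ _ (by omega)]
        simp only [List.getElem_map, List.getElem_zip, ZMod.natCast_mod]
        push_cast [Nat.cast_sub ha.le]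
        simp
        ring
      · rw [List.getD_eq_default _ _ (by simp [h1, h3]; omega), List.getD_eq_default _ _ (by omega),
          List.getD_eq_default _ _ (by omega)]
        simp

/-- The shift. -/
def shift : (ℕ → ZMod p) →ₗ[ZMod p] (ℕ → ZMod p) := LinearMap.funLeft _ _ Nat.succ

theorem toV_tail (v : List ℕ) : toV p v.tail = shift (toV p v) := by
  funext i
  cases v with
  | nil => simp [toV, shift, LinearMap.funLeft]
  | cons a v => rfl

/-- The reduction with the pivot `P`. -/
def redL (b : ZMod p) (P : ℕ → ZMod p) : (ℕ → ZMod p) →ₗ[ZMod p] (ℕ → ZMod p) :=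
  b • LinearMap.id - (LinearMap.proj 0 : (ℕ → ZMod p) →ₗ[ZMod p] ZMod p).smulRight P

theorem redL_apply (b : ZMod p) (P f : ℕ → ZMod p) : redL b P f = b • f - f 0 • P := rfl

theorem span_shift_iff {F : Set (ℕ → ZMod p)} {t : ℕ → ZMod p} (hF : ∀ f ∈ F, f 0 = 0)
    (ht : t 0 = 0) :
    t ∈ Submodule.span (ZMod p) F ↔ shift t ∈ Submodule.span (ZMod p) (shift '' F) := by
  rw [Submodule.span_image, Submodule.mem_map]
  constructor
  · intro h
    exact ⟨t, h, rfl⟩
  · rintro ⟨g, hg, h⟩
    have hg0 : g 0 = 0 := by
      have : Submodule.span (ZMod p) F ≤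
          LinearMap.ker (LinearMap.proj 0 : (ℕ → ZMod p) →ₗ[ZMod p] ZMod p) := by
        rw [Submodule.span_le]
        intro f hf
        simpa using hF f hf
      simpa using this hg
    have : g = t := by
      funext i
      cases i with
      | zero => rw [hg0, ht]
      | succ i => exact congrFun h i
    rwa [← this]

theorem span_redL_iff [Fact p.Prime] {F : Set (ℕ → ZMod p)} {t P : ℕ → ZMod p} (hP : P ∈ F)
    (hb : P 0 ≠ 0) :
    t ∈ Submodule.span (ZMod p) F ↔
      redL (P 0) P t ∈ Submodule.span (ZMod p) (redL (P 0) P '' F) := by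
  constructor
  · intro h
    rw [Submodule.span_image]
    exact ⟨t, h, rfl⟩
  · intro h
    have h1 : redL (P 0) P '' F ⊆ Submodule.span (ZMod p) F := by
      rintro _ ⟨f, hf, rfl⟩
      rw [redL_apply]
      exact Submodule.sub_mem _ (Submodule.smul_mem _ _ (Submodule.subset_span hf))
        (Submodule.smul_mem _ _ (Submodule.subset_span hP))
    have h2 : redL (P 0) P t ∈ Submodule.span (ZMod p) F := Submodule.span_le.2 h1 h
    rw [redL_apply] at h2
    have h3 : (P 0) • t ∈ Submodule.span (ZMod p) F := by
      have := Submodule.add_mem _ h2 (Submodule.smul_mem _ (t 0) (Submodule.subset_span hP))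
      simpa using this
    have h4 := Submodule.smul_mem _ (P 0)⁻¹ h3
    rwa [smul_smul, inv_mul_cancel₀ hb, one_smul] at h4

/-- Correctness of the elimination. -/
theorem estep_iter [Fact p.Prime] : ∀ (m : ℕ) (L : List (List ℕ)) (t : List ℕ) (ok : Bool),
    (∀ v ∈ L, WF p m v) → WF p m t →
    (((estep p)^[m] (L, t, ok)).2.2 = true ↔
      ok = true ∧ toV p t ∈ Submodule.span (ZMod p) (toV p '' {v | v ∈ L})) := by
  have hp : 0 < p := (Fact.out : p.Prime).pos
  intro m
  induction m with
  | zero =>
    intro L t ok hL ht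
    have : toV p t = 0 := by
      have : t = [] := List.length_eq_zero_iff.1 ht.1
      subst this
      funext i
      simp [toV]
    simp only [Function.iterate_zero, id_eq, this, Submodule.zero_mem, and_true]
  | succ m ih =>
    intro L t ok hL ht
    rw [Function.iterate_succ_apply]
    have hcast : ∀ a : ℕ, a < p → ((a : ZMod p) = 0 ↔ a = 0) := by
      intro a ha
      rw [ZMod.natCast_eq_zero_iff]
      constructor
      · intro h; exact Nat.eq_zero_of_dvd_of_lt h ha
      · rintro rfl; exact dvd_zero _
    have hhd : ∀ v : List ℕ, WF p (m + 1) v → hdN v < p := by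
      intro v hv
      cases v with
      | nil => exact hp
      | cons a v => exact hv.2 a (by simp)
    cases hpv : pivot L with
    | none =>
      have hF : ∀ v ∈ L, hdN v = 0 := by
        intro v hv
        by_contra hcon
        have : v ∈ L.filter (fun s => !decide (hdN s = 0)) := by
          rw [List.mem_filter]
          exact ⟨hv, by simpa using hcon⟩
        unfold pivot at hpv
        rw [List.head?_eq_none_iff] at hpv
        rw [hpv] at this
        simp at this
      have h1 : estep p (L, t, ok) = (L.map List.tail, t.tail, ok && decide (hdN t = 0)) := by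
        unfold estep
        simp only [hpv, Option.elim_none]
      rw [h1, ih _ _ _ (by
        intro v hv
        rw [List.mem_map] at hv
        obtain ⟨w, hw, rfl⟩ := hv
        exact (hL w hw).tail) ht.tail, Bool.and_eq_true, decide_eq_true_eq, and_assoc]
      apply and_congr_right
      intro _
      have himg : toV p '' {v | v ∈ L.map List.tail} = shift '' (toV p '' {v | v ∈ L}) := by
        ext f
        simp only [Set.mem_image, Set.mem_ofPred_eq, List.mem_map]
        constructor
        · rintro ⟨_, ⟨w, hw, rfl⟩, rfl⟩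
          exact ⟨_, ⟨w, hw, rfl⟩, (toV_tail w).symm⟩
        · rintro ⟨_, ⟨w, hw, rfl⟩, rfl⟩
          exact ⟨_, ⟨w, hw, rfl⟩, toV_tail w⟩
      have hF' : ∀ f ∈ toV p '' {v | v ∈ L}, f 0 = 0 := by
        rintro _ ⟨v, hv, rfl⟩
        rw [toV_head, hF v hv]
        simp
      rw [himg, toV_tail]
      constructor
      · rintro ⟨h2, h3⟩
        exact (span_shift_iff hF' (by rw [toV_head, h2]; simp)).2 h3
      · intro h2
        have h3 : toV p t 0 = 0 := by
          have : Submodule.span (ZMod p) (toV p '' {v | v ∈ L}) ≤
              LinearMap.ker (LinearMap.proj 0 : (ℕ → ZMod p) →ₗ[ZMod p] ZMod p) := by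
            rw [Submodule.span_le]
            intro f hf
            simpa using hF' f hf
          simpa using this h2
        refine ⟨?_, (span_shift_iff hF' h3).1 h2⟩
        rw [toV_head] at h3
        exact (hcast _ (hhd t ht)).1 h3
    | some pv =>
      have hpv1 : pv ∈ L ∧ hdN pv ≠ 0 := by
        unfold pivot at hpv
        have := List.mem_of_mem_head? hpv
        rw [List.mem_filter] at this
        exact ⟨this.1, by simpa using this.2⟩
      obtain ⟨hpL, hpn⟩ := hpv1
      have hW := hL pv hpL
      have h1 : estep p (L, t, ok) = (L.map (red p pv), red p pv t, ok) := by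
        unfold estep
        simp only [hpv, Option.elim_some]
      have hb : toV p pv 0 ≠ 0 := by
        rw [toV_head]
        intro h
        exact hpn ((hcast _ (hhd pv hW)).1 h)
      have hred : ∀ v : List ℕ, WF p (m + 1) v →
          toV p (red p pv v) = shift (redL (toV p pv 0) (toV p pv) (toV p v)) := by
        intro v hv
        funext i
        rw [toV_red hv hW]
        simp [shift, LinearMap.funLeft, redL_apply, toV_head]
      rw [h1, ih _ _ _ (by
        intro v hv
        rw [List.mem_map] at hv
        obtain ⟨w, hw, rfl⟩ := hv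
        exact (hL w hw).red hW hp) (ht.red hW hp)]
      apply and_congr_right
      intro _
      have himg : toV p '' {v | v ∈ L.map (red p pv)} =
          shift '' (redL (toV p pv 0) (toV p pv) '' (toV p '' {v | v ∈ L})) := by
        ext f
        simp only [Set.mem_image, Set.mem_ofPred_eq, List.mem_map]
        constructor
        · rintro ⟨_, ⟨w, hw, rfl⟩, rfl⟩
          exact ⟨_, ⟨_, ⟨w, hw, rfl⟩, rfl⟩, (hred w (hL w hw)).symm⟩
        · rintro ⟨_, ⟨_, ⟨w, hw, rfl⟩, rfl⟩, rfl⟩
          exact ⟨_, ⟨w, hw, rfl⟩, hred w (hL w hw)⟩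
      rw [himg, hred t ht, span_redL_iff (F := toV p '' {v | v ∈ L}) ⟨pv, hpL, rfl⟩ hb]
      refine (span_shift_iff ?_ ?_).symm
      · rintro _ ⟨f, -, rfl⟩
        rw [redL_apply]
        simp
        ring
      · rw [redL_apply]
        simp
        ring

end Pool.Agent.H334R5.Lin
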