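import Pool.Agent.H334R5.Lin.Main

/-!
# Sets closed under `x ⊕ y ⊕ z` for strings of the same length are linearly defined modulo 2
-/

set_option autoImplicit false

namespace Pool.Agent.H334R5.Lin

open Pool.Agent.NPC

/-- a string as a vector -/
def bv (s : List Bool) : ℕ → ZMod 2 := fun i => if s.getD i false = true then 1 else 0

theorem bv_xorL {x y : List Bool} (h : x.length = y.length) : bv (xorL x y) = bv x + bv y := by
  funext i
  unfold bv xorL
  rw [Pi.add_apply]
  by_cases hi : i < x.length
  · rw [List.getD_eq_getElem _ _ (by simpa [h] using (h ▸ hi : i < y.length)),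
      List.getD_eq_getElem _ _ hi, List.getD_eq_getElem _ _ (by omega), List.getElem_zipWith]
    cases x[i] <;> cases y[i] <;> simp <;> rfl
  · rw [List.getD_eq_default _ _ (by simp; omega), List.getD_eq_default _ _ (by omega),
      List.getD_eq_default _ _ (by omega)]
    simp

theorem bv_inj {x y : List Bool} (h : x.length = y.length) (hb : bv x = bv y) : x = y := by
  apply List.ext_getElem h
  intro i h1 h2
  have := congrFun hb i
  unfold bv at this
  rw [List.getD_eq_getElem _ _ h1, List.getD_eq_getElem _ _ h2] at this
  cases hx : x[i] <;> cases hy : y[i] <;> simp [hx, hy] at this ⊢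

/-- the feature vector -/
def xφ (s : List Bool) : List ℕ :=
  ((List.replicate (s.length * s.length) ()).map (fun _ => 0)) ++
    1 :: s.map (fun b => bif b then 1 else 0)

theorem poly_xφ : Poly xφ := by
  unfold xφ
  have h1 : Poly (fun s : List Bool => List.replicate (s.length * s.length) ()) :=
    UPoly.mul (UPoly.length Poly.id) (UPoly.length Poly.id)
  refine Poly.append (NPC.Poly.map (F := fun (_ : List Bool) (_ : Unit) => 0) h1
    (NPC.Poly.const _)) (Poly.cons (NPC.Poly.const _) (NPC.Poly.map
      (F := fun (_ : List Bool) (b : Bool) => bif b then 1 else 0) Poly.id ?_))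
  exact Poly.cond (Poly.snd Poly.id) (NPC.Poly.const _) (NPC.Poly.const _)

theorem xφ_getD (s : List Bool) (j : ℕ) : ((xφ s).getD j 0 : ZMod 2) =
    if j < s.length * s.length then 0 else
      if j = s.length * s.length then 1 else bv s (j - s.length * s.length - 1) := by
  unfold xφ
  have hl : ((List.replicate (s.length * s.length) ()).map (fun _ => 0)).length =
      s.length * s.length := by simp
  by_cases h1 : j < s.length * s.length
  · rw [if_pos h1, List.getD_append _ _ _ _ (by rw [hl]; exact h1),
      List.getD_eq_getElem _ _ (by rw [hl]; exact h1)]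
    simp
  · rw [if_neg h1, List.getD_append_right _ _ _ _ (by rw [hl]; omega), hl]
    by_cases h2 : j = s.length * s.length
    · rw [if_pos h2, h2]
      simp
    · rw [if_neg h2]
      obtain ⟨i, rfl⟩ : ∃ i, j = s.length * s.length + 1 + i := ⟨j - (s.length * s.length + 1),
        by omega⟩
      have e1 : s.length * s.length + 1 + i - s.length * s.length = i + 1 := by omega
      have e2 : s.length * s.length + 1 + i - s.length * s.length - 1 = i := by omega
      rw [e2, e1, List.getD_cons_succ]
      unfold bv
      by_cases hi : i < s.length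
      · rw [List.getD_eq_getElem _ _ (by simpa using hi), List.getD_eq_getElem _ _ hi]
        cases h : s[i] <;> simp [h]
      · rw [List.getD_eq_default _ _ (by simpa using hi), List.getD_eq_default _ _ (by omega)]
        simp

/-- The vector of a list, with finite support. -/
noncomputable def fv (v : List ℕ) : ℕ →₀ ZMod 2 :=
  (v.zipIdx.map (fun e => Finsupp.single e.2 (e.1 : ZMod 2))).sum

theorem fv_apply_aux (v : List ℕ) (k j : ℕ) :
    ((v.zipIdx k).map (fun e => Finsupp.single e.2 (e.1 : ZMod 2))).sum (k + j) =
      (v.getD j 0 : ZMod 2) := by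
  induction v generalizing k j with
  | nil => simp
  | cons a v ih =>
    rw [List.zipIdx_cons, List.map_cons, List.sum_cons, Finsupp.add_apply]
    cases j with
    | zero =>
      have h0 : ((v.zipIdx (k + 1)).map (fun e => Finsupp.single e.2 (e.1 : ZMod 2))).sum k = 0 := by
        have : ∀ l : List (ℕ × ℕ), (∀ e ∈ l, k < e.2) →
            (l.map (fun e => Finsupp.single e.2 (e.1 : ZMod 2))).sum k = 0 := by
          intro l
          induction l with
          | nil => intro _; simp
          | cons e l ihl =>
            intro h
            rw [List.map_cons, List.sum_cons, Finsupp.add_apply,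
              ihl (fun e he => h e (List.mem_cons_of_mem _ he)), Finsupp.single_apply,
              if_neg (by have := h e (by simp); omega), add_zero]
        apply this
        rintro ⟨c, i⟩ hc
        have := List.le_snd_of_mem_zipIdx hc
        simp only at this ⊢
        omega
      rw [Nat.add_zero, h0]
      simp
    | succ j =>
      have e : k + (j + 1) = (k + 1) + j := by omega
      rw [e, ih (k + 1) j, Finsupp.single_apply, if_neg (by simp only; omega), zero_add]
      simp

theorem fv_apply (v : List ℕ) (j : ℕ) : fv v j = (v.getD j 0 : ZMod 2) := by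
  have := fv_apply_aux v 0 j
  rwa [Nat.zero_add] at this

theorem dot_eq (f : (ℕ →₀ ZMod 2) →ₗ[ZMod 2] ZMod 2) (v : List ℕ) :
    dot (fun i => f (Finsupp.single i 1)) v = f (fv v) := by
  unfold dot fv
  induction v.zipIdx with
  | nil => simp
  | cons e l ih =>
    rw [List.map_cons, List.sum_cons, List.map_cons, List.sum_cons, map_add, ih]
    congr 1
    have : Finsupp.single e.2 (e.1 : ZMod 2) = (e.1 : ZMod 2) • Finsupp.single e.2 (1 : ZMod 2) := by
      rw [Finsupp.smul_single, smul_eq_mul, mul_one]
    rw [this, map_smul, smul_eq_mul, mul_comm]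

/-- The block of the length `n`. -/
noncomputable def blk (n : ℕ) : (ℕ →₀ ZMod 2) →ₗ[ZMod 2] (ℕ → ZMod 2) :=
  LinearMap.pi (fun i => if i ≤ n then Finsupp.lapply (n * n + i) else 0)

theorem blk_self (s : List Bool) (i : ℕ) :
    blk s.length (fv (xφ s)) i = if i = 0 then 1 else bv s (i - 1) := by
  unfold blk
  rw [LinearMap.pi_apply]
  by_cases hi : i ≤ s.length
  · rw [if_pos hi, Finsupp.lapply_apply, fv_apply, xφ_getD, if_neg (by omega)]
    by_cases h0 : i = 0
    · subst h0; simp
    · rw [if_neg (by omega), if_neg h0]
      congr 1
      omega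
  · rw [if_neg hi, if_neg (by omega)]
    unfold bv
    rw [List.getD_eq_default _ _ (by omega)]
    simp

theorem blk_other (s : List Bool) (n : ℕ) (h : s.length ≠ n) : blk n (fv (xφ s)) = 0 := by
  funext i
  unfold blk
  rw [LinearMap.pi_apply]
  by_cases hi : i ≤ n
  · rw [if_pos hi, Finsupp.lapply_apply, fv_apply, xφ_getD]
    rcases lt_or_gt_of_ne h with h1 | h1
    · have h2 : s.length * s.length + s.length < n * n := by nlinarith
      rw [if_neg (by omega), if_neg (by omega)]
      unfold bv
      rw [List.getD_eq_default _ _ (by omega)]
      simp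
    · have h2 : n * n + n < s.length * s.length := by nlinarith
      rw [if_pos (by omega)]
      rfl
  · rw [if_neg hi]
    rfl

theorem mem_of_span {S : Set (List Bool)} (hS : XorClosed S) {z : List Bool}
    (h : fv (xφ z) ∈ Submodule.span (ZMod 2) ((fun s => fv (xφ s)) '' S)) : z ∈ S := by
  have h1 : blk z.length (fv (xφ z)) ∈ Submodule.span (ZMod 2)
      (blk z.length '' ((fun s => fv (xφ s)) '' S)) := by
    rw [Submodule.span_image]
    exact ⟨_, h, rfl⟩
  by_cases hne : ∃ s0 ∈ S, s0.length = z.length
  · obtain ⟨s0, hs0, hl0⟩ := hne
    -- the submodule of the affine space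
    set e : (ℕ → ZMod 2) → (ℕ → ZMod 2) := fun v i => v (i + 1) with he
    have two : ∀ a : ZMod 2, a + a = 0 := by decide
    have twoF : ∀ f : ℕ → ZMod 2, f + f = 0 := fun f => funext fun i => two (f i)
    let U : Submodule (ZMod 2) (ℕ → ZMod 2) :=
      { carrier := {v | (v 0 = 0 ∧ ∃ s ∈ S, s.length = z.length ∧ e v = bv s + bv s0) ∨
          (v 0 = 1 ∧ ∃ s ∈ S, s.length = z.length ∧ e v = bv s)}
        zero_mem' := Or.inl ⟨rfl, s0, hs0, hl0, by rw [twoF]; rfl⟩
        add_mem' := by
          rintro v w hv hw
          have key : ∀ s ∈ S, ∀ t ∈ S, s.length = z.length → t.length = z.length →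
              ∃ u ∈ S, u.length = z.length ∧ bv u = bv s + bv t + bv s0 := by
            intro s hs t ht h1 h2
            refine ⟨xorL s (xorL t s0), hS s hs t ht s0 hs0 (by omega) (by omega), ?_, ?_⟩
            · simp [xorL, h1, h2, hl0]
            · rw [bv_xorL (by simp [xorL]; omega), bv_xorL (by omega), add_assoc]
          rcases hv with ⟨hv0, s, hs, hsl, hve⟩ | ⟨hv0, s, hs, hsl, hve⟩ <;>
            rcases hw with ⟨hw0, t, ht, htl, hwe⟩ | ⟨hw0, t, ht, htl, hwe⟩ <;>
            obtain ⟨u, hu, hul, hub⟩ := key s hs t ht hsl htl
          · left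
            refine ⟨by simp [hv0, hw0], u, hu, hul, ?_⟩
            have : e (v + w) = e v + e w := rfl
            rw [this, hve, hwe, hub]
            funext i
            simp only [Pi.add_apply]
            ring
          · right
            refine ⟨by simp [hv0, hw0], u, hu, hul, ?_⟩
            have : e (v + w) = e v + e w := rfl
            rw [this, hve, hwe, hub]
            funext i
            simp only [Pi.add_apply]
            ring
          · right
            refine ⟨by simp [hv0, hw0], u, hu, hul, ?_⟩
            have : e (v + w) = e v + e w := rfl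
            rw [this, hve, hwe, hub]
            funext i
            simp only [Pi.add_apply]
            ring
          · left
            refine ⟨by simp only [Pi.add_apply, hv0, hw0]; rfl, u, hu, hul, ?_⟩
            have : e (v + w) = e v + e w := rfl
            rw [this, hve, hwe, hub]
            funext i
            simp only [Pi.add_apply]
            have := two (bv s0 i)
            linear_combination (-1 : ZMod 2) * this
        smul_mem' := by
          intro c v hv
          have : c = 0 ∨ c = 1 := by revert c; decide
          rcases this with rfl | rfl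
          · left
            refine ⟨by simp, s0, hs0, hl0, ?_⟩
            rw [twoF]
            funext i
            simp [he]
          · rw [one_smul]
            exact hv }
    have h2 : blk z.length (fv (xφ z)) ∈ U := by
      refine Submodule.span_le.2 ?_ h1
      rintro _ ⟨_, ⟨s, hs, rfl⟩, rfl⟩
      by_cases hl : s.length = z.length
      · right
        rw [← hl]
        refine ⟨by simp only; rw [blk_self]; rfl, s, hs, rfl, ?_⟩
        funext i
        simp only [he]
        rw [blk_self]
        simp
      · simp only
        rw [blk_other s z.length hl]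
        exact U.zero_mem
    rcases h2 with ⟨h2, -⟩ | ⟨-, s, hs, hsl, hse⟩
    · rw [blk_self] at h2
      simp at h2
    · have : bv z = bv s := by
        rw [← hse]
        funext i
        simp only [he]
        rw [blk_self]
        simp
      rw [bv_inj hsl.symm this]
      exact hs
  · exfalso
    push Not at hne
    have h2 : Submodule.span (ZMod 2) (blk z.length '' ((fun s => fv (xφ s)) '' S)) ≤ ⊥ := by
      rw [Submodule.span_le]
      rintro _ ⟨_, ⟨s, hs, rfl⟩, rfl⟩
      exact blk_other s z.length (hne s hs)
    have h3 := h2 h1
    rw [Submodule.mem_bot] at h3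
    have h4 := congrFun h3 0
    rw [blk_self] at h4
    simp at h4

/-- Sets closed under `x ⊕ y ⊕ z` are linearly defined modulo 2. -/
theorem xorClosed_linearlyDefined {S : Set (List Bool)} (hS : XorClosed S) :
    LinearlyDefined 2 S := by
  refine ⟨xφ, {w | ∀ s ∈ S, dot w (xφ s) = 0}, polyTime_bits poly_xφ, fun z => ?_⟩
  constructor
  · intro hz w hw
    exact hw z hz
  · intro h
    apply mem_of_span hS
    by_contra hcon
    obtain ⟨f, hf, hf'⟩ := Submodule.exists_le_ker_of_notMem hcon
    apply hf
    rw [← dot_eq]
    apply h
    intro s hs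
    rw [dot_eq]
    exact hf' (Submodule.subset_span ⟨s, hs, rfl⟩)

end Pool.Agent.H334R5.Lin
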